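import Pool.Agent.NPG.Stmts

/-! Row LSE of squad NPG (second seat). -/

set_option autoImplicit false

open Set Topology

namespace Pool.Agent.NPG.H71

open Pool.Agent.LSG Pool.Agent.NPG

theorem lse : LseStmt := by
  intro H _ _ _ d
  have hc : (((Subgroup.closure (Set.range d) : Subgroup H) : Set H)).Countable := by
    rw [← FreeGroup.range_lift_eq_closure, MonoidHom.coe_range]
    exact Set.countable_range _
  obtain ⟨l, hl⟩ := hc.exists_eq_range ⟨1, Subgroup.one_mem _⟩
  refine ⟨(Subgroup.closure (Set.range d)).topologicalClosure, l, ?_, ?_, ?_, ?_⟩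
  · exact Subgroup.isClosed_topologicalClosure _
  · intro s
    exact Subgroup.le_topologicalClosure _ (Subgroup.subset_closure ⟨s, rfl⟩)
  · intro j
    apply Subgroup.le_topologicalClosure _
    have : l j ∈ (((Subgroup.closure (Set.range d) : Subgroup H) : Set H)) := by
      rw [hl]
      exact ⟨j, rfl⟩
    exact this
  · intro z hz W hW
    have hz' : z ∈ closure (((Subgroup.closure (Set.range d) : Subgroup H) : Set H)) := hz
    have hcont : Continuous fun y : H => z * y⁻¹ := continuous_const.mul continuous_inv
    have hn : (fun y : H => z * y⁻¹) ⁻¹' W ∈ nhds z := by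
      apply hcont.continuousAt
      simpa using hW
    obtain ⟨y, hy1, hy2⟩ := mem_closure_iff_nhds.1 hz' _ hn
    rw [hl] at hy2
    obtain ⟨j, hj⟩ := hy2
    refine ⟨j, ?_⟩
    rw [hj]
    exact hy1

end Pool.Agent.NPG.H71
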