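import Pool.Agent.NPG.Stmts

/-! Row COV of squad NPG (second seat). -/

set_option autoImplicit false

open Set Topology

namespace Pool.Agent.NPG.H71

open Pool.Agent.LSG Pool.Agent.NPG

theorem cov (hS : StoStmt) : CovStmt := by
  intro Q I _ _ U hU hcov
  obtain ⟨ψ, h0, hU', huniq, hlf, hex⟩ := hS Q I U hU hcov
  classical
  -- the sums
  let s : ℕ → Q → ℝ := fun c q => ∑ᶠ i, ψ c i q
  have hlfc : ∀ c, LocallyFinite fun i : I => Function.support (ψ c i) := by
    intro c
    have h := hlf.comp_injective (g := fun i : I => ((c, i) : ℕ × I)) (fun i j hij => by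
      simpa using congrArg Prod.snd hij)
    exact h
  have hscont : ∀ c, Continuous (s c) := fun c =>
    continuous_finsum (fun i => (ψ c i).continuous) (hlfc c)
  have hsval : ∀ c i q, ψ c i q ≠ 0 → s c q = ψ c i q := by
    intro c i q hne
    apply finsum_eq_single
    intro j hj
    by_contra hcon
    exact hj (huniq c j i q hcon hne)
  have hszero : ∀ c q, s c q ≠ 0 → ∃ i, ψ c i q ≠ 0 := by
    intro c q hne
    by_contra hcon
    push Not at hcon
    apply hne
    change ∑ᶠ i, ψ c i q = 0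
    rw [finsum_congr hcon, finsum_zero]
  have hsnn : ∀ c q, 0 ≤ s c q := fun c q => finsum_nonneg (fun i => h0 c i q)
  have hspos : ∀ q, ∃ c, 0 < s c q := by
    intro q
    obtain ⟨c, i, hne⟩ := hex q
    refine ⟨c, ?_⟩
    rw [hsval c i q hne]
    exact lt_of_le_of_ne (h0 c i q) (Ne.symm hne)
  let D : ℕ → Set Q := fun c => {q | ∀ c', s c' q ≤ s c q}
  have hDpos : ∀ c q, q ∈ D c → ∃ i, ψ c i q ≠ 0 := by
    intro c q hq
    obtain ⟨c', hc'⟩ := hspos q
    apply hszero c q
    have := hq c'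
    exact (lt_of_lt_of_le hc' this).ne'
  let ξ : ℕ → Q → I := fun c q => if h : ∃ i, ψ c i q ≠ 0 then h.choose else (hcov q).choose
  have hξ : ∀ c i q, ψ c i q ≠ 0 → ξ c q = i := by
    intro c i q hne
    have hx : ∃ i, ψ c i q ≠ 0 := ⟨i, hne⟩
    have h1 : ξ c q = hx.choose := dif_pos hx
    rw [h1]
    exact huniq c _ i q hx.choose_spec hne
  refine ⟨D, ξ, ?_, ?_, ?_, ?_, ?_⟩
  · intro c
    have : D c = ⋂ c', {q | s c' q ≤ s c q} := by
      ext q
      simp [D]
    rw [this]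
    exact isClosed_iInter fun c' => isClosed_le (hscont c') (hscont c)
  · intro q
    obtain ⟨W, hW, hfin⟩ := hlf q
    refine ⟨W, hW, (hfin.image Prod.fst).subset ?_⟩
    rintro c ⟨q', hq', hqW⟩
    obtain ⟨i, hi⟩ := hDpos c q' hq'
    exact ⟨(c, i), ⟨q', hi, hqW⟩, rfl⟩
  · intro q
    obtain ⟨W, hW, hfin⟩ := hlf q
    have hfin' : {c | s c q ≠ 0}.Finite := by
      refine (hfin.image Prod.fst).subset ?_
      intro c hc
      obtain ⟨i, hi⟩ := hszero c q hc
      exact ⟨(c, i), ⟨q, hi, mem_of_mem_nhds hW⟩, rfl⟩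
    obtain ⟨c0, hc0⟩ := hspos q
    have hne : hfin'.toFinset.Nonempty := ⟨c0, by
      rw [Set.Finite.mem_toFinset]
      exact hc0.ne'⟩
    obtain ⟨c, hc, hmax⟩ := Finset.exists_max_image hfin'.toFinset (fun c => s c q) hne
    refine ⟨c, fun c' => ?_⟩
    by_cases hz : s c' q = 0
    · rw [hz]
      exact hsnn c q
    · exact hmax c' ((Set.Finite.mem_toFinset hfin').2 hz)
  · intro c q hq
    obtain ⟨i, hi⟩ := hDpos c q hq
    rw [hξ c i q hi]
    exact hU' c i q hi
  · intro c q hq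
    obtain ⟨i, hi⟩ := hDpos c q hq
    have h1 : ∀ᶠ q' in nhds q, ψ c i q' ≠ 0 :=
      (ψ c i).continuous.continuousAt.eventually_ne hi
    filter_upwards [h1] with q' hq' _
    rw [hξ c i q' hq', hξ c i q hi]

end Pool.Agent.NPG.H71
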