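import Pool.Agent.NPG.Stmts

/-! Row JEX of squad NPG (second seat). -/

set_option autoImplicit false

open Set Topology

namespace Pool.Agent.NPG.H71

open Pool.Agent.LSG Pool.Agent.NPG

theorem jex_cont {X : Type} [TopologicalSpace X] (A D : Set X) (hA : IsClosed A) (hD : IsClosed D)
    (g : D → ℝ) (hg : Continuous g) (hz : ∀ x : D, x.1 ∈ A → g x = 0) :
    Continuous fun x : ↥(A ∪ D) => by
      classical exact (if h : x.1 ∈ D then g ⟨x.1, h⟩ else (0 : ℝ)) := by
  classical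
  let f : ↥(A ∪ D) → ℝ := fun x => if h : x.1 ∈ D then g ⟨x.1, h⟩ else (0 : ℝ)
  have cA : IsClosed {x : ↥(A ∪ D) | x.1 ∈ A} := hA.preimage continuous_subtype_val
  have cD : IsClosed {x : ↥(A ∪ D) | x.1 ∈ D} := hD.preimage continuous_subtype_val
  have h1 : ContinuousOn f {x : ↥(A ∪ D) | x.1 ∈ A} := by
    have h2 : ContinuousOn (fun _ : ↥(A ∪ D) => (0 : ℝ)) {x : ↥(A ∪ D) | x.1 ∈ A} :=
      continuousOn_const
    refine h2.congr ?_
    intro x hx
    by_cases h : x.1 ∈ D
    · have : f x = g ⟨x.1, h⟩ := dif_pos h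
      rw [this]
      exact hz ⟨x.1, h⟩ hx
    · exact dif_neg h
  have h1' : ContinuousOn f {x : ↥(A ∪ D) | x.1 ∈ D} := by
    rw [continuousOn_iff_continuous_domRestrict]
    have h2 : Continuous fun x : ↥{x : ↥(A ∪ D) | x.1 ∈ D} => (⟨x.1.1, x.2⟩ : D) :=
      Continuous.subtype_mk (continuous_subtype_val.comp continuous_subtype_val) _
    have h3 : Set.domRestrict {x : ↥(A ∪ D) | x.1 ∈ D} f = fun x => g (⟨x.1.1, x.2⟩ : D) := by
      funext x
      exact dif_pos x.2
    rw [h3]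
    exact hg.comp h2
  have key : Continuous f := by
    have hu := h1.union_of_isClosed h1' cA cD
    have he : ({x : ↥(A ∪ D) | x.1 ∈ A} ∪ {x : ↥(A ∪ D) | x.1 ∈ D}) = Set.univ :=
      Set.eq_univ_of_forall (fun x => x.2)
    rw [he] at hu
    exact continuousOn_univ.1 hu
  exact key

theorem jex (hDug : DugStmt) : JexStmt := by
  intro X _ _ A D hA hD
  classical
  obtain ⟨φ, hφ⟩ := hDug X (A ∪ D) (hA.union hD)
  let k0 : ↥(Rv D {x : D | x.1 ∈ A}) →ₗ[ℝ] ↥(Cp ↥(A ∪ D)) :=
    { toFun := fun g => ⟨fun x => if h : x.1 ∈ D then g.1 ⟨x.1, h⟩ else (0 : ℝ),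
        jex_cont A D hA hD g.1 g.2.1 g.2.2⟩
      map_add' := by
        intro g g'
        apply Subtype.ext
        funext x
        by_cases h : x.1 ∈ D
        · simp [h]
        · simp [h]
      map_smul' := by
        intro c g
        apply Subtype.ext
        funext x
        by_cases h : x.1 ∈ D
        · simp [h]
        · simp [h] }
  have hk : Continuous k0 := by
    refine Continuous.subtype_mk ?_ _
    refine continuous_pi ?_
    intro x
    by_cases h : x.1 ∈ D
    · simp only [h, dite_true]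
      exact (continuous_apply (⟨x.1, h⟩ : D)).comp continuous_subtype_val
    · simp only [h, dite_false]
      exact continuous_const
  let k : ↥(Rv D {x : D | x.1 ∈ A}) →L[ℝ] ↥(Cp ↥(A ∪ D)) := ⟨k0, hk⟩
  refine ⟨φ.comp k, ?_⟩
  intro g
  constructor
  · intro x
    have h1 := hφ (k g) ⟨x.1, Or.inr x.2⟩
    have h2 : (k g).1 ⟨x.1, Or.inr x.2⟩ = g.1 x := dif_pos x.2
    rw [← h2]
    exact h1
  · intro x hx
    have h1 := hφ (k g) ⟨x, Or.inl hx⟩
    have h2 : (k g).1 ⟨x, Or.inl hx⟩ = 0 := by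
      by_cases h : x ∈ D
      · have h3 : (k g).1 ⟨x, Or.inl hx⟩ = g.1 ⟨x, h⟩ := dif_pos h
        rw [h3]
        exact g.2.2 ⟨x, h⟩ hx
      · exact dif_neg h
    rw [← h2]
    exact h1

end Pool.Agent.NPG.H71
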